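import Mathlib

namespace Pool.Agent.Results.MP_aaa104_nt.Six

/-- `a` is a positive integer all of whose prime factors are at most `n`. -/
def Smooth (n a : ℕ) : Prop := 0 < a ∧ ∀ p : ℕ, p.Prime → p ∣ a → p ≤ n

/-- The group of positive rationals `a / b` with `a`, `b` both `n`-smooth. -/
def Khat (n : ℕ) : Set ℚ := {x | ∃ a b : ℕ, Smooth n a ∧ Smooth n b ∧ x = (a : ℚ) / b}

/-- An `n`-satisfactory coloring of `Khat n` (values of `c` outside `Khat n` play no role). -/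
def Satisfactory (n : ℕ) (c : ℚ → ℕ) : Prop :=
  (∀ x ∈ Khat n, 1 ≤ c x ∧ c x ≤ n) ∧ (∀ i : ℕ, 1 ≤ i → i ≤ n → c i = i) ∧
    ∀ x ∈ Khat n, ∀ i j : ℕ, 1 ≤ i → i < j → j ≤ n → c (i * x) ≠ c (j * x)

/-- The color class of color `k`. -/
def colorClass (n : ℕ) (c : ℚ → ℕ) (k : ℕ) : Set ℚ := {x | x ∈ Khat n ∧ c x = k}

/-- The partition of `Khat n` into the color classes of `c`. -/
def classes (n : ℕ) (c : ℚ → ℕ) : Set (Set ℚ) :=
  {S | ∃ k : ℕ, 1 ≤ k ∧ k ≤ n ∧ S = colorClass n c k}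

/-- The partition `c'` induced by `X`: its parts are `{y ∈ Khat n | y / i ∈ X}`, `i ∈ [n]`. -/
def induced (n : ℕ) (X : Set ℚ) : Set (Set ℚ) :=
  {S | ∃ i : ℕ, 1 ≤ i ∧ i ≤ n ∧ S = {y | y ∈ Khat n ∧ y / i ∈ X}}

def tabL : List ℕ :=
  [1, 5, 2, 3, 4, 6, 3, 4, 6, 1, 5, 2, 2, 1, 4, 6, 3, 5, 6, 3, 5, 2, 1, 4,
   4, 6, 1, 5, 2, 3, 5, 2, 3, 4, 6, 1, 3, 5, 2, 1, 4, 6, 1, 4, 6, 3, 5, 2,
   2, 3, 4, 6, 1, 5, 6, 1, 5, 2, 3, 4, 4, 6, 3, 5, 2, 1, 5, 2, 1, 4, 6, 3]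

def tab (a : ZMod 6) (b : ZMod 2) (d : ZMod 6) : ℕ := tabL.getD (12 * a.val + 6 * b.val + d.val) 0

def col (x : ℚ) : ℕ :=
  tab (padicValRat 2 x : ℤ) (padicValRat 3 x : ℤ) (padicValRat 5 x : ℤ)

def e2 (i : ℕ) : ℕ := if i = 4 then 2 else if i = 2 ∨ i = 6 then 1 else 0

def e3 (i : ℕ) : ℕ := if i = 3 ∨ i = 6 then 1 else 0

def e5 (i : ℕ) : ℕ := if i = 5 then 1 else 0

lemma pv (p k n : ℕ) (hp : p.Prime) (h1 : p ^ k ∣ n) (h2 : ¬ p ^ (k + 1) ∣ n) :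
    padicValNat p n = k := by
  have : Fact p.Prime := ⟨hp⟩
  have hn : n ≠ 0 := by
    rintro rfl
    exact h2 (dvd_zero _)
  have a := (padicValNat_dvd_iff_le hn).mp h1
  have b := (padicValNat_dvd_iff_le (p := p) (n := k + 1) hn).not.mp h2
  omega

lemma vals (i : ℕ) (h1 : 1 ≤ i) (h6 : i ≤ 6) :
    padicValNat 2 i = e2 i ∧ padicValNat 3 i = e3 i ∧ padicValNat 5 i = e5 i := by
  have a1 : padicValNat 2 4 = 2 := pv 2 2 4 (by norm_num) (by norm_num) (by norm_num)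
  have a2 : padicValNat 2 6 = 1 := pv 2 1 6 (by norm_num) (by norm_num) (by norm_num)
  have a3 : padicValNat 3 6 = 1 := pv 3 1 6 (by norm_num) (by norm_num) (by norm_num)
  interval_cases i <;> simp [e2, e3, e5, a1, a2, a3]

lemma col_mul (i : ℕ) (h1 : 1 ≤ i) (h6 : i ≤ 6) (x : ℚ) (hx : x ≠ 0) :
    col (i * x) = tab (e2 i + (padicValRat 2 x : ℤ)) (e3 i + (padicValRat 3 x : ℤ))
      (e5 i + (padicValRat 5 x : ℤ)) := by
  have : Fact (Nat.Prime 5) := ⟨by norm_num⟩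
  have hi : (i : ℚ) ≠ 0 := by positivity
  obtain ⟨a, b, c⟩ := vals i h1 h6
  unfold col
  rw [padicValRat.mul hi hx, padicValRat.mul hi hx, padicValRat.mul hi hx]
  simp [padicValRat.of_nat, a, b, c]

lemma tab_range : ∀ a b d, 1 ≤ tab a b d ∧ tab a b d ≤ 6 := by decide

lemma tab_rainbow : ∀ a b d, ∀ j ≤ 6, ∀ i < j, 1 ≤ i →
    tab (e2 i + a) (e3 i + b) (e5 i + d) ≠ tab (e2 j + a) (e3 j + b) (e5 j + d) := by
  decide +kernel

lemma col_nat (i : ℕ) (h1 : 1 ≤ i) (h6 : i ≤ 6) : col i = i := by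
  have := col_mul i h1 h6 1 one_ne_zero
  rw [mul_one] at this
  rw [this]
  simp only [padicValRat.one, Int.cast_zero, add_zero]
  interval_cases i <;> decide

lemma ne_zero_of_mem {n : ℕ} {x : ℚ} (hx : x ∈ Khat n) : x ≠ 0 := by
  obtain ⟨a, b, ha, hb, rfl⟩ := hx
  have := ha.1
  have := hb.1
  positivity

lemma sat : Satisfactory 6 col := by
  refine ⟨fun x _ => tab_range _ _ _, col_nat, fun x hx i j h1 hij h6 => ?_⟩
  rw [col_mul i h1 (by omega) x (ne_zero_of_mem hx), col_mul j (by omega) h6 x (ne_zero_of_mem hx)]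
  exact tab_rainbow _ _ _ j h6 i hij h1

lemma smooth_of_dvd (a : ℕ) (h : a ∣ 30 ^ 4) : Smooth 6 a := by
  refine ⟨Nat.pos_of_dvd_of_pos h (by norm_num), fun p hp hpa => ?_⟩
  have h1 : p ∣ 30 := hp.dvd_of_dvd_pow (hpa.trans h)
  have h2 : p ≤ 30 := Nat.le_of_dvd (by norm_num) h1
  interval_cases p <;> first | omega | (exfalso; revert hp; norm_num)

lemma mem_nat (a : ℕ) (h : a ∣ 30 ^ 4) : (a : ℚ) ∈ Khat 6 :=
  ⟨a, 1, smooth_of_dvd a h, smooth_of_dvd 1 (one_dvd _), by simp⟩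

lemma col_24 : col ((24 : ℕ) : ℚ) = 1 ∧ col ((48 : ℕ) : ℚ) = 6 := by
  unfold col
  simp only [padicValRat.of_nat]
  have a1 : padicValNat 2 24 = 3 := pv 2 3 24 (by norm_num) (by norm_num) (by norm_num)
  have a2 : padicValNat 3 24 = 1 := pv 3 1 24 (by norm_num) (by norm_num) (by norm_num)
  have a3 : padicValNat 5 24 = 0 := by simp
  have a4 : padicValNat 2 48 = 4 := pv 2 4 48 (by norm_num) (by norm_num) (by norm_num)
  have a5 : padicValNat 3 48 = 1 := pv 3 1 48 (by norm_num) (by norm_num) (by norm_num)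
  have a6 : padicValNat 5 48 = 0 := by simp
  rw [a1, a2, a3, a4, a5, a6]
  decide

theorem result : ∃ (n : ℕ) (c : ℚ → ℕ) (X : Set ℚ), 1 ≤ n ∧ Satisfactory n c ∧
    X ∈ classes n c ∧ induced n X ≠ classes n c := by
  refine ⟨6, col, colorClass 6 col 1, by norm_num, sat, ⟨1, le_rfl, by norm_num, rfl⟩, ?_⟩
  intro h
  have hm : {y | y ∈ Khat 6 ∧ y / (2 : ℕ) ∈ colorClass 6 col 1} ∈ classes 6 col := by
    rw [← h]
    exact ⟨2, by norm_num, by norm_num, rfl⟩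
  obtain ⟨k, -, -, hk⟩ := hm
  have m1 : ((2 : ℕ) : ℚ) ∈ colorClass 6 col k := by
    rw [← hk]
    refine ⟨mem_nat 2 (by norm_num), ?_⟩
    rw [show ((2 : ℕ) : ℚ) / (2 : ℕ) = (1 : ℕ) by norm_num]
    exact ⟨mem_nat 1 (by norm_num), col_nat 1 le_rfl (by norm_num)⟩
  have m2 : ((48 : ℕ) : ℚ) ∈ colorClass 6 col k := by
    rw [← hk]
    refine ⟨mem_nat 48 (by norm_num), ?_⟩
    rw [show ((48 : ℕ) : ℚ) / (2 : ℕ) = (24 : ℕ) by norm_num]
    exact ⟨mem_nat 24 (by norm_num), col_24.1⟩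
  have h1 := m1.2
  have h2 := m2.2
  rw [col_nat 2 (by norm_num) (by norm_num)] at h1
  rw [col_24.2] at h2
  omega

end Pool.Agent.Results.MP_aaa104_nt.Six
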